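import Pool.Agent.L5helper13.KM.Main
import Pool.Agent.L5helper99.KMOrbit

set_option autoImplicit false

namespace Pool.Agent.L5helper13.KM

open MvPolynomial

theorem eval_of_pure (F G : MvPolynomial (Fin 2) ℂ)
    (h : ∀ e : Fin 2 →₀ ℕ, (e 0 = 0 ∨ e 1 = 0) → coeff e F = coeff e G)
    (v : Fin 2 → ℂ) (hv : v 0 * v 1 = 0) : eval v F = eval v G := by
  rw [← sub_eq_zero, ← map_sub, eval_eq']
  refine Finset.sum_eq_zero fun e _ => ?_
  by_cases he : e 0 = 0 ∨ e 1 = 0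
  · rw [coeff_sub, h e he, sub_self, zero_mul]
  · push Not at he
    rw [Fin.prod_univ_two]
    rcases mul_eq_zero.1 hv with h0 | h0
    · rw [h0, zero_pow he.1]; ring
    · rw [h0, zero_pow he.2]; ring

/-- The coefficients of a Keller map are algebraic over every field which contains the coefficients
of its restriction to the cross. -/
theorem alg_keller (k : Subfield ℂ) (F₁ F₂ : MvPolynomial (Fin 2) ℂ)
    (hF : pderiv 0 F₁ * pderiv 1 F₂ - pderiv 1 F₁ * pderiv 0 F₂ = 1)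
    (hk : ∀ e : Fin 2 →₀ ℕ, (e 0 = 0 ∨ e 1 = 0) → coeff e F₁ ∈ k ∧ coeff e F₂ ∈ k)
    (e : Fin 2 →₀ ℕ) : IsAlgebraic k (coeff e F₁) ∧ IsAlgebraic k (coeff e F₂) := by
  have hfin := finite_keller F₁ F₂ (max F₁.totalDegree F₂.totalDegree)
  have hmem : ∀ τ : ℂ ≃ₐ[k] ℂ, (map (τ : ℂ →+* ℂ) F₁, map (τ : ℂ →+* ℂ) F₂) ∈
      {F : MvPolynomial (Fin 2) ℂ × MvPolynomial (Fin 2) ℂ |
      pderiv 0 F.1 * pderiv 1 F.2 - pderiv 1 F.1 * pderiv 0 F.2 = 1 ∧
      F.1.totalDegree ≤ max F₁.totalDegree F₂.totalDegree ∧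
      F.2.totalDegree ≤ max F₁.totalDegree F₂.totalDegree ∧
      ∀ v : Fin 2 → ℂ, v 0 * v 1 = 0 → eval v F.1 = eval v F₁ ∧ eval v F.2 = eval v F₂} := by
    intro τ
    have hdeg : ∀ P : MvPolynomial (Fin 2) ℂ,
        (map (τ : ℂ →+* ℂ) P).totalDegree ≤ P.totalDegree := fun P =>
      Finset.sup_mono (support_map_subset _ _)
    refine ⟨?_, (hdeg _).trans (le_max_left _ _), (hdeg _).trans (le_max_right _ _), ?_⟩
    · have := congrArg (map (τ : ℂ →+* ℂ)) hF
      simpa [pderiv_map] using this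
    · intro v hv
      constructor
      · refine eval_of_pure _ _ (fun e he => ?_) v hv
        rw [coeff_map]
        exact τ.commutes ⟨coeff e F₁, (hk e he).1⟩
      · refine eval_of_pure _ _ (fun e he => ?_) v hv
        rw [coeff_map]
        exact τ.commutes ⟨coeff e F₂, (hk e he).2⟩
  constructor
  · refine alg_of_orbit k _ ?_
    refine (hfin.image fun F => coeff e F.1).subset ?_
    rintro _ ⟨τ, rfl⟩
    refine ⟨_, hmem τ, ?_⟩
    simp [coeff_map]
  · refine alg_of_orbit k _ ?_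
    refine (hfin.image fun F => coeff e F.2).subset ?_
    rintro _ ⟨τ, rfl⟩
    refine ⟨_, hmem τ, ?_⟩
    simp [coeff_map]

end Pool.Agent.L5helper13.KM
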