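import Pool.Agent.L5helper13.KM.Comp

set_option autoImplicit false

namespace Pool.Agent.L5helper13.KM

open MvPolynomial Finset

/-- The coefficient of a polynomial which agrees with `G` on the cross, in the box. -/
theorem A_coeff (d : ℕ) (F G : MvPolynomial (Fin 2) ℂ) (hd : F.totalDegree ≤ d)
    (h : ∀ v : Fin 2 → ℂ, v 0 * v 1 = 0 → eval v F = eval v G) (e : Ex) (he : e ≠ 0) :
    coeff e F = A d (fun e => coeff e G) 1 (fun k => coeff k.1 F) e := by
  unfold A
  by_cases h1 : e ∈ Mx d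
  · rw [dif_pos h1]
  · rw [dif_neg h1]
    by_cases h2 : e 0 = 0 ∨ e 1 = 0
    · rw [if_pos h2, if_neg he]
      simp [cross F G h e h2]
    · rw [if_neg h2]
      by_contra h3
      apply h1
      rw [mem_Mx]
      have h4 : e ∈ F.support := by rw [mem_support_iff]; exact h3
      have h5 := le_totalDegree h4
      have h6 : (e.sum fun _ n => n) = e 0 + e 1 := by
        rw [Finsupp.sum_fintype _ _ (fun _ => rfl), Fin.sum_univ_two]
      rw [h6] at h5
      push Not at h2
      refine ⟨⟨?_, ?_⟩, ?_, ?_⟩ <;> omega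

theorem finite_keller (G₁ G₂ : MvPolynomial (Fin 2) ℂ) (d : ℕ) :
    {F : MvPolynomial (Fin 2) ℂ × MvPolynomial (Fin 2) ℂ |
      pderiv 0 F.1 * pderiv 1 F.2 - pderiv 1 F.1 * pderiv 0 F.2 = 1 ∧
      F.1.totalDegree ≤ d ∧ F.2.totalDegree ≤ d ∧
      ∀ v : Fin 2 → ℂ, v 0 * v 1 = 0 → eval v F.1 = eval v G₁ ∧ eval v F.2 = eval v G₂}.Finite := by
  classical
  set g : Fin 2 → Ex → ℂ := ![fun e => coeff e G₁, fun e => coeff e G₂] with hgdef
  have g0 : g 0 = fun e => coeff e G₁ := rfl
  have g1 : g 1 = fun e => coeff e G₂ := rfl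
  have hsupp : ∀ F : MvPolynomial (Fin 2) ℂ, (Function.support fun e => coeff e F).Finite := by
    intro F
    refine F.support.finite_toSet.subset ?_
    intro e he
    rw [Function.mem_support] at he
    rw [Finset.mem_coe, mem_support_iff]
    exact he
  have hg : ∀ i, (Function.support (g i)).Finite := by
    intro i
    fin_cases i
    · exact hsupp G₁
    · exact hsupp G₂
  have hV := fin_V d g hg
  set T : MvPolynomial (Fin 2) ℂ × MvPolynomial (Fin 2) ℂ → ({e // e ∈ Mx d} × Fin 2 → ℂ) :=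
    fun F k => if k.2 = 0 then coeff k.1.1 F.1 else coeff k.1.1 F.2 with hT
  refine Set.Finite.of_finite_image (f := T) (hV.subset ?_) ?_
  · rintro _ ⟨F, ⟨hk, hd1, hd2, hz⟩, rfl⟩
    have h1 := kel_of_br F.1 F.2 hk
    intro m
    rw [← h1 m]
    refine Phi_congr _ _ _ _ ?_ ?_ m
    · intro e he
      rw [A_coeff d F.1 G₁ hd1 (fun v hv => (hz v hv).1) e he, g0]
      rfl
    · intro e he
      rw [A_coeff d F.2 G₂ hd2 (fun v hv => (hz v hv).2) e he, g1]
      rfl
  · rintro F ⟨-, hd1, hd2, hz⟩ F' ⟨-, hd1', hd2', hz'⟩ hFF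
    have hc : ∀ (k : {e // e ∈ Mx d}), coeff k.1 F.1 = coeff k.1 F'.1 ∧ coeff k.1 F.2 = coeff k.1 F'.2 := by
      intro k
      have h0 := congrFun hFF (k, 0)
      have h1 := congrFun hFF (k, 1)
      simp only [hT] at h0 h1
      exact ⟨by simpa using h0, by simpa using h1⟩
    refine Prod.ext ?_ ?_
    · ext e
      by_cases he : e = 0
      · rw [cross F.1 G₁ (fun v hv => (hz v hv).1) e (by rw [he]; simp),
          cross F'.1 G₁ (fun v hv => (hz' v hv).1) e (by rw [he]; simp)]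
      · rw [A_coeff d F.1 G₁ hd1 (fun v hv => (hz v hv).1) e he,
          A_coeff d F'.1 G₁ hd1' (fun v hv => (hz' v hv).1) e he]
        congr 1
        funext k
        exact (hc k).1
    · ext e
      by_cases he : e = 0
      · rw [cross F.2 G₂ (fun v hv => (hz v hv).2) e (by rw [he]; simp),
          cross F'.2 G₂ (fun v hv => (hz' v hv).2) e (by rw [he]; simp)]
      · rw [A_coeff d F.2 G₂ hd2 (fun v hv => (hz v hv).2) e he,
          A_coeff d F'.2 G₂ hd2' (fun v hv => (hz' v hv).2) e he]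
        congr 1
        funext k
        exact (hc k).2

theorem countable_keller (G₁ G₂ : MvPolynomial (Fin 2) ℂ) :
    {F : MvPolynomial (Fin 2) ℂ × MvPolynomial (Fin 2) ℂ |
      pderiv 0 F.1 * pderiv 1 F.2 - pderiv 1 F.1 * pderiv 0 F.2 = 1 ∧
      ∀ v : Fin 2 → ℂ, v 0 * v 1 = 0 → eval v F.1 = eval v G₁ ∧ eval v F.2 = eval v G₂}.Countable := by
  refine (Set.countable_iUnion fun d : ℕ => (finite_keller G₁ G₂ d).countable).mono ?_
  rintro F ⟨h1, h2⟩
  exact Set.mem_iUnion.2 ⟨max F.1.totalDegree F.2.totalDegree,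
    h1, le_max_left _ _, le_max_right _ _, h2⟩

end Pool.Agent.L5helper13.KM
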