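import Pool.Agent.L5helper13.KM.Lead
import Pool.Agent.L5helper13.KM.Main

set_option autoImplicit false

namespace Pool.Agent.L5helper13.KM

open MvPolynomial

theorem axis_D (i j : Fin 2) (hij : j ≠ i) (D Q : Fin 2 → MvPolynomial (Fin 2) ℂ) (a : ℕ)
    (hD : ∀ k, D k = X i ^ (a + 1) * Q k)
    (h0 : pderiv i (D 0) * pderiv j (D 1) - pderiv j (D 0) * pderiv i (D 1) = 0) :
    rho i (Q 0) * Polynomial.derivative (rho i (Q 1))
      = rho i (Q 1) * Polynomial.derivative (rho i (Q 0)) := by
  have hi : ∀ k, pderiv i (D k) = X i ^ a * (((a : MvPolynomial (Fin 2) ℂ) + 1) * Q k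
      + X i * pderiv i (Q k)) := by
    intro k
    rw [hD k, Derivation.leibniz, Derivation.leibniz_pow, pderiv_X_self, smul_eq_mul, smul_eq_mul,
      smul_eq_mul, nsmul_eq_mul, Nat.add_sub_cancel]
    push_cast
    ring
  have hj : ∀ k, pderiv j (D k) = X i ^ a * (X i * pderiv j (Q k)) := by
    intro k
    rw [hD k, Derivation.leibniz, Derivation.leibniz_pow, pderiv_X_of_ne hij.symm, smul_eq_mul,
      smul_eq_mul, smul_eq_mul, nsmul_eq_mul]
    ring
  have h1 : (X i : MvPolynomial (Fin 2) ℂ) ^ (a + a + 1) *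
      ((((a : MvPolynomial (Fin 2) ℂ) + 1) * Q 0 + X i * pderiv i (Q 0)) * pderiv j (Q 1)
        - pderiv j (Q 0) * (((a : MvPolynomial (Fin 2) ℂ) + 1) * Q 1
          + X i * pderiv i (Q 1))) = 0 := by
    have h2 := h0
    simp only [hi, hj] at h2
    linear_combination h2
  have h3 := (mul_eq_zero.1 h1).resolve_left (pow_ne_zero _ (X_ne_zero i))
  have h4 := congrArg (rho i) h3
  simp only [map_add, map_mul, map_sub, rho_X_self, zero_mul, add_zero, map_zero, map_natCast,
    map_one, rho_pderiv i j hij] at h4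
  have h5 : ((a : Polynomial ℂ) + 1) ≠ 0 := by
    exact_mod_cast Nat.succ_ne_zero a
  have h6 : ((a : Polynomial ℂ) + 1) * (rho i (Q 0) * Polynomial.derivative (rho i (Q 1))
      - rho i (Q 1) * Polynomial.derivative (rho i (Q 0))) = 0 := by
    linear_combination h4
  exact sub_eq_zero.1 ((mul_eq_zero.1 h6).resolve_left h5)

theorem deg_le_one (g : Polynomial ℂ) (w : Polynomial ℂ) (c : ℂ) (hc : c ≠ 0)
    (h : Polynomial.C c * Polynomial.derivative (Polynomial.derivative g)
      = Polynomial.derivative g * w) : g.natDegree ≤ 1 := by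
  by_contra hlt
  push Not at hlt
  have h1 : (Polynomial.derivative g).natDegree = g.natDegree - 1 := Polynomial.natDegree_derivative _
  have h2 : (Polynomial.derivative (Polynomial.derivative g)).natDegree = g.natDegree - 2 := by
    rw [Polynomial.natDegree_derivative, h1]
    omega
  have h3 : Polynomial.derivative g ≠ 0 := by
    intro h0
    rw [h0, Polynomial.natDegree_zero] at h1
    omega
  have h4 : Polynomial.derivative (Polynomial.derivative g) ≠ 0 := by
    intro h0
    have := Polynomial.derivative_eq_zero.1 h0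
    omega
  have hw : w ≠ 0 := by
    rintro rfl
    rw [mul_zero] at h
    rcases mul_eq_zero.1 h with h5 | h5
    · exact hc (Polynomial.C_eq_zero.1 h5)
    · exact h4 h5
  have h6 := congrArg Polynomial.natDegree h
  rw [Polynomial.natDegree_C_mul hc, Polynomial.natDegree_mul h3 hw, h1, h2] at h6
  omega

theorem straight (i j : Fin 2) (hij : j ≠ i) (G E : Fin 2 → MvPolynomial (Fin 2) ℂ) (c : ℂ)
    (hc : c ≠ 0) (b : ℕ) (l : Polynomial ℂ) (hl0 : l ≠ 0)
    (hG : pderiv i (G 0) * pderiv j (G 1) - pderiv j (G 0) * pderiv i (G 1) = C c)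
    (hl : ∀ k, rho i (E k) = l * Polynomial.derivative (rho i (G k)))
    (hE : rho i (X j ^ b * E 0) * Polynomial.derivative (rho i (X j ^ b * E 1))
      = rho i (X j ^ b * E 1) * Polynomial.derivative (rho i (X j ^ b * E 0))) (k : Fin 2) :
    (rho i (G k)).natDegree ≤ 1 := by
  set g0 := Polynomial.derivative (rho i (G 0)) with hg0
  set g1 := Polynomial.derivative (rho i (G 1)) with hg1
  have h1 := congrArg (rho i) hG
  simp only [map_sub, map_mul, rho_pderiv i j hij, rho_C, ← hg0, ← hg1] at h1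
  have hμ : ∀ k, rho i (X j ^ b * E k) = (Polynomial.X ^ b * l) *
      Polynomial.derivative (rho i (G k)) := by
    intro k
    rw [map_mul, map_pow, rho_X_ne i j hij, hl k]
    ring
  rw [hμ 0, hμ 1, ← hg0, ← hg1] at hE
  have hm : (Polynomial.X ^ b * l : Polynomial ℂ) ≠ 0 :=
    mul_ne_zero (pow_ne_zero _ Polynomial.X_ne_zero) hl0
  have h2 : g0 * Polynomial.derivative g1 = g1 * Polynomial.derivative g0 := by
    simp only [Polynomial.derivative_mul (f := Polynomial.X ^ b * l)] at hE
    have h3 : (Polynomial.X ^ b * l) * (Polynomial.X ^ b * l) *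
        (g0 * Polynomial.derivative g1 - g1 * Polynomial.derivative g0) = 0 := by
      linear_combination hE
    exact sub_eq_zero.1 ((mul_eq_zero.1 h3).resolve_left (mul_ne_zero hm hm))
  have hkk : k = 0 ∨ k = 1 := by omega
  rcases hkk with rfl | rfl
  · refine deg_le_one _ (rho i (pderiv i (G 0)) * Polynomial.derivative g1
      - rho i (pderiv i (G 1)) * Polynomial.derivative g0) c hc ?_
    rw [← hg0]
    linear_combination (-(Polynomial.derivative g0)) * h1
      - (rho i (pderiv i (G 0))) * h2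
  · refine deg_le_one _ (rho i (pderiv i (G 0)) * Polynomial.derivative g1
      - rho i (pderiv i (G 1)) * Polynomial.derivative g0) c hc ?_
    rw [← hg1]
    linear_combination (-(Polynomial.derivative g1)) * h1
      - (rho i (pderiv i (G 1))) * h2

/-- If the determinant of the Jacobian matrix of `F - G` vanishes and `F ≠ G`, then both axes are
mapped to straight lines with degree one. -/
theorem straight_main (F G : Fin 2 → MvPolynomial (Fin 2) ℂ)
    (hF : pderiv 0 (F 0) * pderiv 1 (F 1) - pderiv 1 (F 0) * pderiv 0 (F 1) = 1)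
    (hG : pderiv 0 (G 0) * pderiv 1 (G 1) - pderiv 1 (G 0) * pderiv 0 (G 1) = 1)
    (hZ : ∀ k, ∀ v : Fin 2 → ℂ, v 0 * v 1 = 0 → eval v (F k) = eval v (G k))
    (hD : pderiv 0 (F 0 - G 0) * pderiv 1 (F 1 - G 1)
      - pderiv 1 (F 0 - G 0) * pderiv 0 (F 1 - G 1) = 0)
    (hne : ¬ (F 0 = G 0 ∧ F 1 = G 1)) (i k : Fin 2) :
    (rho i (G k)).natDegree ≤ 1 := by
  obtain ⟨m, n, E, hE, hnd⟩ := strip _ (fun k => F k - G k) le_rfl (by
    rintro ⟨h0, h1⟩
    exact hne ⟨sub_eq_zero.1 h0, sub_eq_zero.1 h1⟩)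
  have hdvd : ∀ i k : Fin 2, X i ∣ F k - G k := by
    intro i k
    apply dvd_of_rho
    obtain ⟨j, hj⟩ : ∃ j : Fin 2, j ≠ i := exists_ne i
    rw [map_sub, sub_eq_zero]
    ext t
    rw [rho_coeff i j hj, rho_coeff i j hj]
    refine cross _ _ (hZ k) _ ?_
    have hi : (Finsupp.single j t : Fin 2 →₀ ℕ) i = 0 := by
      rw [Finsupp.single_apply, if_neg hj]
    fin_cases i
    · exact Or.inl hi
    · exact Or.inr hi
  obtain ⟨m', rfl⟩ : ∃ m', m = m' + 1 := by
    refine Nat.exists_eq_succ_of_ne_zero ?_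
    rintro rfl
    apply hnd 0
    intro k
    have h1 := hdvd 0 k
    rw [hE k, pow_zero, one_mul] at h1
    exact (X_dvd_mul_iff.1 h1).resolve_left (not_dvd_pow 0 1 (by decide) n)
  obtain ⟨n', rfl⟩ : ∃ n', n = n' + 1 := by
    refine Nat.exists_eq_succ_of_ne_zero ?_
    rintro rfl
    apply hnd 1
    intro k
    have h1 := hdvd 1 k
    rw [hE k, pow_zero, mul_one] at h1
    exact (X_dvd_mul_iff.1 h1).resolve_left (not_dvd_pow 1 0 (by decide) _)
  have hne0 : ∀ (i : Fin 2) (l : Polynomial ℂ),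
      (∀ k, rho i (E k) = l * Polynomial.derivative (rho i (G k))) → l ≠ 0 := by
    intro i l hl
    rintro rfl
    apply hnd i
    intro k
    apply dvd_of_rho
    rw [hl k, zero_mul]
  have hii : i = 0 ∨ i = 1 := by omega
  rcases hii with rfl | rfl
  · have hA0 : rho 0 (E 0) * Polynomial.derivative (rho 0 (G 1))
        = rho 0 (E 1) * Polynomial.derivative (rho 0 (G 0)) := by
      have h1 := axis_eq 0 1 (by decide) G (fun k => F k - G k) (fun k => X 1 ^ (n' + 1) * E k) m' 1
        (fun k => by rw [hE k]; ring) hG (by simpa using hF)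
      simp only [map_mul, map_pow, rho_X_ne 0 1 (by decide)] at h1
      have h2 : (Polynomial.X : Polynomial ℂ) ^ (n' + 1) ≠ 0 := pow_ne_zero _ Polynomial.X_ne_zero
      apply mul_left_cancel₀ h2
      linear_combination h1
    obtain ⟨l0, hl0⟩ := lam 0 1 (by decide) G E 1 one_ne_zero (by rw [hG, C_1]) hA0
    exact straight 0 1 (by decide) G E 1 one_ne_zero (n' + 1) l0 (hne0 0 l0 hl0)
      (by rw [hG, C_1]) hl0
      (axis_D 0 1 (by decide) (fun k => F k - G k) (fun k => X 1 ^ (n' + 1) * E k) m'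
        (fun k => by rw [hE k]; ring) hD) k
  · have hA1 : rho 1 (E 0) * Polynomial.derivative (rho 1 (G 1))
        = rho 1 (E 1) * Polynomial.derivative (rho 1 (G 0)) := by
      have h1 := axis_eq 1 0 (by decide) G (fun k => F k - G k) (fun k => X 0 ^ (m' + 1) * E k) n'
        (-1) (fun k => by rw [hE k]; ring) (by linear_combination (-1) * hG) (by
          have h3 : ∀ k, G k + (F k - G k) = F k := fun k => by ring
          simp only [h3]
          linear_combination (-1) * hF)
      simp only [map_mul, map_pow, rho_X_ne 1 0 (by decide)] at h1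
      have h2 : (Polynomial.X : Polynomial ℂ) ^ (m' + 1) ≠ 0 := pow_ne_zero _ Polynomial.X_ne_zero
      apply mul_left_cancel₀ h2
      linear_combination h1
    obtain ⟨l1, hl1⟩ := lam 1 0 (by decide) G E (-1) (by norm_num) (by
      rw [C_neg, C_1]; linear_combination (-1) * hG) hA1
    exact straight 1 0 (by decide) G E (-1) (by norm_num) (m' + 1) l1 (hne0 1 l1 hl1)
      (by rw [C_neg, C_1]; linear_combination (-1) * hG) hl1
      (axis_D 1 0 (by decide) (fun k => F k - G k) (fun k => X 0 ^ (m' + 1) * E k) n'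
        (fun k => by rw [hE k]; ring) (by linear_combination (-1) * hD)) k

/-- A Keller map which has degree at most one on both axes has no mixed terms. -/
theorem no_mixed (G₁ G₂ : MvPolynomial (Fin 2) ℂ)
    (hG : pderiv 0 G₁ * pderiv 1 G₂ - pderiv 1 G₁ * pderiv 0 G₂ = 1)
    (h1 : ∀ i, (rho i G₁).natDegree ≤ 1) (h2 : ∀ i, (rho i G₂).natDegree ≤ 1)
    (e : Ex) (h0 : 1 ≤ e 0) (h0' : 1 ≤ e 1) : coeff e G₁ = 0 ∧ coeff e G₂ = 0 := by
  have hsupp : ∀ F : MvPolynomial (Fin 2) ℂ, (Function.support fun e => coeff e F).Finite := by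
    intro F
    refine F.support.finite_toSet.subset ?_
    intro e he
    rw [Function.mem_support] at he
    rw [Finset.mem_coe, mem_support_iff]
    exact he
  have hpure : ∀ P : MvPolynomial (Fin 2) ℂ, (∀ i, (rho i P).natDegree ≤ 1) →
      ∀ e : Ex, (e 0 = 0 ∨ e 1 = 0) → e ≠ Finsupp.single 0 1 → e ≠ Finsupp.single 1 1 →
      coeff e (P - C (coeff 0 P)) = 0 := by
    intro P hP e he hx hy
    by_cases h3 : e = 0
    · rw [h3, coeff_sub, coeff_C, if_pos rfl, sub_self]
    · rw [coeff_sub, coeff_C, if_neg (Ne.symm h3), sub_zero]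
      have key : ∀ i j : Fin 2, j ≠ i → e i = 0 → coeff e P = 0 := by
        intro i j hij hi
        have h4 : e = Finsupp.single j (e j) := by
          ext k
          by_cases hk : k = j
          · subst hk
            simp
          · have hki : k = i := by omega
            subst hki
            simp [hi, hij]
        have h5 : 2 ≤ e j := by
          by_contra hlt
          have h6 : e j = 0 ∨ e j = 1 := by omega
          rcases h6 with h6 | h6
          · rw [h6, Finsupp.single_zero] at h4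
            exact h3 h4
          · rw [h6] at h4
            have hjj : j = 0 ∨ j = 1 := by omega
            rcases hjj with rfl | rfl
            · exact hx h4
            · exact hy h4
        rw [h4, ← rho_coeff i j hij]
        exact Polynomial.coeff_eq_zero_of_natDegree_lt ((hP i).trans_lt (by omega))
      rcases he with he | he
      · exact key 0 1 (by decide) he
      · exact key 1 0 (by decide) he
  have hK := kel_of_br (G₁ - C (coeff 0 G₁)) (G₂ - C (coeff 0 G₂)) (by
    simp only [map_sub, pderiv_C, sub_zero]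
    exact hG)
  have := special' _ _ (hsupp _) (hsupp _) hK (hpure G₁ h1) (hpure G₂ h2) e h0 h0'
  have hne : (0 : Ex) ≠ e := by
    rintro rfl
    simp at h0
  simp only [coeff_sub, coeff_C, if_neg hne, sub_zero] at this
  exact this

/-- No three Keller maps with the same restriction to the cross lie on a line. -/
theorem collinear (F₁ F₂ G₁ G₂ : MvPolynomial (Fin 2) ℂ)
    (hF : pderiv 0 F₁ * pderiv 1 F₂ - pderiv 1 F₁ * pderiv 0 F₂ = 1)
    (hG : pderiv 0 G₁ * pderiv 1 G₂ - pderiv 1 G₁ * pderiv 0 G₂ = 1)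
    (hZ : ∀ v : Fin 2 → ℂ, v 0 * v 1 = 0 → eval v F₁ = eval v G₁ ∧ eval v F₂ = eval v G₂)
    (hD : pderiv 0 (F₁ - G₁) * pderiv 1 (F₂ - G₂) - pderiv 1 (F₁ - G₁) * pderiv 0 (F₂ - G₂) = 0) :
    F₁ = G₁ ∧ F₂ = G₂ := by
  by_contra hne
  have hs := straight_main ![F₁, F₂] ![G₁, G₂] (by simpa using hF) (by simpa using hG)
    (by
      intro k v hv
      obtain ⟨e1, e2⟩ := hZ v hv
      fin_cases k
      · simpa using e1
      · simpa using e2) (by simpa using hD) (by simpa using hne)
  have hg1 : ∀ i, (rho i G₁).natDegree ≤ 1 := fun i => by simpa using hs i 0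
  have hg2 : ∀ i, (rho i G₂).natDegree ≤ 1 := fun i => by simpa using hs i 1
  have hco : ∀ (P Q : MvPolynomial (Fin 2) ℂ),
      (∀ v : Fin 2 → ℂ, v 0 * v 1 = 0 → eval v P = eval v Q) → ∀ i, rho i P = rho i Q := by
    intro P Q h i
    obtain ⟨j, hj⟩ : ∃ j : Fin 2, j ≠ i := exists_ne i
    ext t
    rw [rho_coeff i j hj, rho_coeff i j hj]
    refine cross _ _ h _ ?_
    have hi : (Finsupp.single j t : Fin 2 →₀ ℕ) i = 0 := by
      rw [Finsupp.single_apply, if_neg hj]
    fin_cases i
    · exact Or.inl hi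
    · exact Or.inr hi
  have hf1 : ∀ i, (rho i F₁).natDegree ≤ 1 := fun i => by
    rw [hco F₁ G₁ (fun v hv => (hZ v hv).1) i]
    exact hg1 i
  have hf2 : ∀ i, (rho i F₂).natDegree ≤ 1 := fun i => by
    rw [hco F₂ G₂ (fun v hv => (hZ v hv).2) i]
    exact hg2 i
  apply hne
  constructor
  · ext e
    by_cases he : e 0 = 0 ∨ e 1 = 0
    · exact cross F₁ G₁ (fun v hv => (hZ v hv).1) e he
    · push Not at he
      rw [(no_mixed F₁ F₂ hF hf1 hf2 e (by omega) (by omega)).1,
        (no_mixed G₁ G₂ hG hg1 hg2 e (by omega) (by omega)).1]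
  · ext e
    by_cases he : e 0 = 0 ∨ e 1 = 0
    · exact cross F₂ G₂ (fun v hv => (hZ v hv).2) e he
    · push Not at he
      rw [(no_mixed F₁ F₂ hF hf1 hf2 e (by omega) (by omega)).2,
        (no_mixed G₁ G₂ hG hg1 hg2 e (by omega) (by omega)).2]

/-- The same with a third Keller map on the line. -/
theorem third (F₁ F₂ G₁ G₂ : MvPolynomial (Fin 2) ℂ)
    (hF : pderiv 0 F₁ * pderiv 1 F₂ - pderiv 1 F₁ * pderiv 0 F₂ = 1)
    (hG : pderiv 0 G₁ * pderiv 1 G₂ - pderiv 1 G₁ * pderiv 0 G₂ = 1)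
    (hZ : ∀ v : Fin 2 → ℂ, v 0 * v 1 = 0 → eval v F₁ = eval v G₁ ∧ eval v F₂ = eval v G₂)
    (t : ℂ) (h0 : t ≠ 0) (h1 : t ≠ 1)
    (hT : pderiv 0 (C t * F₁ + C (1 - t) * G₁) * pderiv 1 (C t * F₂ + C (1 - t) * G₂)
      - pderiv 1 (C t * F₁ + C (1 - t) * G₁) * pderiv 0 (C t * F₂ + C (1 - t) * G₂) = 1) :
    F₁ = G₁ ∧ F₂ = G₂ := by
  refine collinear F₁ F₂ G₁ G₂ hF hG hZ ?_
  have h2 : (C (t * (1 - t)) : MvPolynomial (Fin 2) ℂ) *
      (pderiv 0 (F₁ - G₁) * pderiv 1 (F₂ - G₂) - pderiv 1 (F₁ - G₁) * pderiv 0 (F₂ - G₂)) = 0 := by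
    simp only [map_add, pderiv_C_mul] at hT
    simp only [map_sub, C_mul, C_1] at hT ⊢
    linear_combination (-1) * hT + (C t) * hF + (1 - C t) * hG
  refine (mul_eq_zero.1 h2).resolve_left (fun h3 => ?_)
  exact mul_ne_zero h0 (sub_ne_zero.2 (Ne.symm h1)) (C_eq_zero.1 h3)

end Pool.Agent.L5helper13.KM
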