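import Pool.Agent.L5helper83.KMCross
import Pool.Agent.L5helper99.KM.Special
import Pool.Agent.L5helper75.KMFin
import Pool.Agent.L5helper50.KMCoeff
import Pool.Agent.L5helper37.KMSpecial2

set_option autoImplicit false

namespace Pool.Agent.L5helper13.KM

open MvPolynomial Finset

/-- The mixed exponents in a box. -/
noncomputable def Mx (d : ℕ) : Finset Ex :=
  (Finset.Iic (Finsupp.equivFunOnFinite.symm (fun _ : Fin 2 => d))).filter
    (fun e => 1 ≤ e 0 ∧ 1 ≤ e 1)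

theorem mem_Mx (d : ℕ) (e : Ex) : e ∈ Mx d ↔ (e 0 ≤ d ∧ e 1 ≤ d) ∧ 1 ≤ e 0 ∧ 1 ≤ e 1 := by
  unfold Mx
  rw [Finset.mem_filter, Finset.mem_Iic, Finsupp.le_def]
  constructor
  · rintro ⟨h, h1⟩
    exact ⟨⟨by simpa using h 0, by simpa using h 1⟩, h1⟩
  · rintro ⟨⟨h, h'⟩, h1⟩
    refine ⟨fun i => ?_, h1⟩
    fin_cases i
    · simpa using h
    · simpa using h'

/-- The coefficients of the scaled family. -/
noncomputable def A (d : ℕ) (g : Ex → ℂ) (s : ℝ) (c : {e // e ∈ Mx d} → ℂ) (e : Ex) : ℂ :=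
  if h : e ∈ Mx d then c ⟨e, h⟩
  else if e 0 = 0 ∨ e 1 = 0 then (if e = 0 then 0 else (s : ℂ) ^ (e 0 + e 1 - 1) * g e) else 0

theorem A_zero (d : ℕ) (g : Ex → ℂ) (s : ℝ) (c : {e // e ∈ Mx d} → ℂ) : A d g s c 0 = 0 := by
  unfold A
  rw [dif_neg (by rw [mem_Mx]; simp)]
  simp

theorem A_scale (d : ℕ) (g : Ex → ℂ) (s : ℝ) (c : {e // e ∈ Mx d} → ℂ) (e : Ex) :
    A d g s (fun k => (s : ℂ) ^ (k.1 0 + k.1 1 - 1) * c k) e
      = (s : ℂ) ^ (e 0 + e 1 - 1) * A d g 1 c e := by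
  unfold A
  by_cases h : e ∈ Mx d
  · rw [dif_pos h, dif_pos h]
  · rw [dif_neg h, dif_neg h]
    by_cases h1 : e 0 = 0 ∨ e 1 = 0
    · rw [if_pos h1, if_pos h1]
      by_cases h2 : e = 0
      · rw [if_pos h2, if_pos h2, mul_zero]
      · rw [if_neg h2, if_neg h2]
        simp
    · rw [if_neg h1, if_neg h1, mul_zero]

theorem A_cont (d : ℕ) (g : Fin 2 → Ex → ℂ) (i : Fin 2) (e : Ex) :
    Continuous fun x : ℝ × ({e // e ∈ Mx d} × Fin 2 → ℂ) => A d (g i) x.1 (fun k => x.2 (k, i)) e := by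
  unfold A
  by_cases h : e ∈ Mx d
  · simp only [dif_pos h]
    fun_prop
  · simp only [dif_neg h]
    by_cases h1 : e 0 = 0 ∨ e 1 = 0
    · simp only [if_pos h1]
      by_cases h2 : e = 0
      · simp only [if_pos h2]
        exact continuous_const
      · simp only [if_neg h2]
        fun_prop
    · simp only [if_neg h1]
      exact continuous_const

theorem A_supp (d : ℕ) (g : Ex → ℂ) (hg : (Function.support g).Finite) (s : ℝ)
    (c : {e // e ∈ Mx d} → ℂ) : (Function.support (A d g s c)).Finite := by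
  refine ((Mx d).finite_toSet.union hg).subset ?_
  intro e he
  rw [Function.mem_support] at he
  unfold A at he
  by_cases h : e ∈ Mx d
  · exact Or.inl (by simpa using h)
  · right
    rw [dif_neg h] at he
    rw [Function.mem_support]
    intro h3
    apply he
    split_ifs <;> simp [h3]

theorem Phi_scale (a b : Ex → ℂ) (ha : a 0 = 0) (hb : b 0 = 0) (s : ℂ) (m : Ex) :
    Phi (fun e => s ^ (e 0 + e 1 - 1) * a e) (fun e => s ^ (e 0 + e 1 - 1) * b e) m
      = s ^ (m 0 + m 1 - 2) * Phi a b m := by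
  unfold Phi
  rw [Finset.mul_sum]
  refine Finset.sum_congr rfl ?_
  intro p hp
  rw [Finset.HasAntidiagonal.mem_antidiagonal] at hp
  by_cases h1 : p.1 = 0
  · rw [h1, ha]; simp
  by_cases h2 : p.2 = 0
  · rw [h2, hb]; simp
  have e1 : 1 ≤ p.1 0 + p.1 1 := by
    by_contra hlt
    apply h1
    ext i
    fin_cases i <;> simp <;> omega
  have e2 : 1 ≤ p.2 0 + p.2 1 := by
    by_contra hlt
    apply h2
    ext i
    fin_cases i <;> simp <;> omega
  have e3 : m 0 = p.1 0 + p.2 0 := by rw [← hp]; rfl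
  have e4 : m 1 = p.1 1 + p.2 1 := by rw [← hp]; rfl
  have e5 : m 0 + m 1 - 2 = (p.1 0 + p.1 1 - 1) + (p.2 0 + p.2 1 - 1) := by omega
  rw [e5, pow_add]
  ring

theorem Phi_congr (a b a' b' : Ex → ℂ) (ha : ∀ e, e ≠ 0 → a e = a' e) (hb : ∀ e, e ≠ 0 → b e = b' e)
    (m : Ex) : Phi a b m = Phi a' b' m := by
  unfold Phi
  refine Finset.sum_congr rfl ?_
  intro p _
  by_cases h1 : p.1 = 0
  · rw [h1]; simp
  by_cases h2 : p.2 = 0
  · rw [h2]; simp
  rw [ha _ h1, hb _ h2]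

theorem kel_scale (d : ℕ) (g : Fin 2 → Ex → ℂ) (s : ℝ) (c : {e // e ∈ Mx d} × Fin 2 → ℂ)
    (h : Kel (A d (g 0) 1 (fun k => c (k, 0))) (A d (g 1) 1 (fun k => c (k, 1)))) :
    Kel (A d (g 0) s (fun k => (s : ℂ) ^ (k.1 0 + k.1 1 - 1) * c (k, 0)))
      (A d (g 1) s (fun k => (s : ℂ) ^ (k.1 0 + k.1 1 - 1) * c (k, 1))) := by
  intro m
  have e0 : A d (g 0) s (fun k => (s : ℂ) ^ (k.1 0 + k.1 1 - 1) * c (k, 0))
      = fun e => (s : ℂ) ^ (e 0 + e 1 - 1) * A d (g 0) 1 (fun k => c (k, 0)) e :=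
    funext fun e => A_scale d (g 0) s (fun k => c (k, 0)) e
  have e1 : A d (g 1) s (fun k => (s : ℂ) ^ (k.1 0 + k.1 1 - 1) * c (k, 1))
      = fun e => (s : ℂ) ^ (e 0 + e 1 - 1) * A d (g 1) 1 (fun k => c (k, 1)) e :=
    funext fun e => A_scale d (g 1) s (fun k => c (k, 1)) e
  rw [e0, e1, Phi_scale _ _ (A_zero _ _ _ _) (A_zero _ _ _ _), h m]
  by_cases hm : m = Finsupp.single 0 1 + Finsupp.single 1 1
  · rw [if_pos hm, hm]
    simp
  · rw [if_neg hm, mul_zero]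

theorem kel_zero (d : ℕ) (g : Fin 2 → Ex → ℂ) (hg : ∀ i, (Function.support (g i)).Finite)
    (c : {e // e ∈ Mx d} × Fin 2 → ℂ)
    (h : Kel (A d (g 0) 0 (fun k => c (k, 0))) (A d (g 1) 0 (fun k => c (k, 1)))) : c = 0 := by
  have hpure : ∀ i : Fin 2, ∀ e : Ex, (e 0 = 0 ∨ e 1 = 0) → e ≠ Finsupp.single 0 1 →
      e ≠ Finsupp.single 1 1 → A d (g i) 0 (fun k => c (k, i)) e = 0 := by
    intro i e he h1 h2
    unfold A
    rw [dif_neg (by rw [mem_Mx]; omega), if_pos he]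
    by_cases h3 : e = 0
    · rw [if_pos h3]
    · rw [if_neg h3]
      have h4 : e 0 + e 1 - 1 ≠ 0 := by
        intro h5
        rcases he with h6 | h6
        · apply h2
          have : e 1 ≠ 0 := by
            intro h7
            apply h3
            ext j
            fin_cases j
            · simpa using h6
            · simpa using h7
          ext j
          fin_cases j
          · simpa using h6
          · simp; omega
        · apply h1
          have : e 0 ≠ 0 := by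
            intro h7
            apply h3
            ext j
            fin_cases j
            · simpa using h7
            · simpa using h6
          ext j
          fin_cases j
          · simp; omega
          · simpa using h6
      simp [h4]
  funext k
  obtain ⟨⟨e, he⟩, i⟩ := k
  have hm := (mem_Mx d e).1 he
  have := special' _ _ (A_supp d (g 0) (hg 0) 0 _) (A_supp d (g 1) (hg 1) 0 _) h (hpure 0) (hpure 1) e
    hm.2.1 hm.2.2
  unfold A at this
  rw [dif_pos he, dif_pos he] at this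
  fin_cases i
  · exact this.1
  · exact this.2

theorem bdd (d : ℕ) (g : Fin 2 → Ex → ℂ) (hg : ∀ i, (Function.support (g i)).Finite) :
    ∃ B : ℝ, ∀ c : {e // e ∈ Mx d} × Fin 2 → ℂ,
      Kel (A d (g 0) 1 (fun k => c (k, 0))) (A d (g 1) 1 (fun k => c (k, 1))) → ∀ k, ‖c k‖ ≤ B := by
  classical
  set K : Set (ℝ × ({e // e ∈ Mx d} × Fin 2 → ℂ)) :=
    (Set.Icc (0 : ℝ) 1 ×ˢ Metric.sphere (0 : {e // e ∈ Mx d} × Fin 2 → ℂ) 1) ∩
      {x | Kel (A d (g 0) x.1 (fun k => x.2 (k, 0))) (A d (g 1) x.1 (fun k => x.2 (k, 1)))} with hK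
  have hcl : IsClosed {x : ℝ × ({e // e ∈ Mx d} × Fin 2 → ℂ) |
      Kel (A d (g 0) x.1 (fun k => x.2 (k, 0))) (A d (g 1) x.1 (fun k => x.2 (k, 1)))} := by
    unfold Kel
    simp only [Set.ofPred_forall]
    refine isClosed_iInter fun m => ?_
    refine isClosed_eq ?_ continuous_const
    unfold Phi
    refine continuous_finsetSum _ fun p _ => ?_
    exact continuous_const.mul ((A_cont d g 0 p.1).mul (A_cont d g 1 p.2))
  have hcomp : IsCompact K := (isCompact_Icc.prod (isCompact_sphere _ _)).inter_right hcl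
  have hscale : ∀ c : {e // e ∈ Mx d} × Fin 2 → ℂ, 1 < ‖c‖ →
      Kel (A d (g 0) 1 (fun k => c (k, 0))) (A d (g 1) 1 (fun k => c (k, 1))) →
      ∃ s : ℝ, s ∈ Set.Icc (0 : ℝ) 1 ∧
        (s, fun k : {e // e ∈ Mx d} × Fin 2 => (s : ℂ) ^ (k.1.1 0 + k.1.1 1 - 1) * c k) ∈ K := by
    intro c hc hkel
    have hN : Continuous fun s : ℝ =>
        ‖fun k : {e // e ∈ Mx d} × Fin 2 => (s : ℂ) ^ (k.1.1 0 + k.1.1 1 - 1) * c k‖ := by
      fun_prop
    have h0 : ‖fun k : {e // e ∈ Mx d} × Fin 2 => ((0 : ℝ) : ℂ) ^ (k.1.1 0 + k.1.1 1 - 1) * c k‖ = 0 := by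
      rw [norm_eq_zero]
      funext k
      have hk := (mem_Mx d k.1.1).1 k.1.2
      have : k.1.1 0 + k.1.1 1 - 1 ≠ 0 := by omega
      simp [this]
    have h1 : ‖fun k : {e // e ∈ Mx d} × Fin 2 => ((1 : ℝ) : ℂ) ^ (k.1.1 0 + k.1.1 1 - 1) * c k‖ = ‖c‖ := by
      congr 1
      funext k
      simp
    have := intermediate_value_Icc (zero_le_one' ℝ) hN.continuousOn
    have hmem : (1 : ℝ) ∈ Set.Icc
        (‖fun k : {e // e ∈ Mx d} × Fin 2 => ((0 : ℝ) : ℂ) ^ (k.1.1 0 + k.1.1 1 - 1) * c k‖)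
        (‖fun k : {e // e ∈ Mx d} × Fin 2 => ((1 : ℝ) : ℂ) ^ (k.1.1 0 + k.1.1 1 - 1) * c k‖) := by
      rw [h0, h1]
      exact ⟨zero_le_one, hc.le⟩
    obtain ⟨s, hs, hs1⟩ := this hmem
    refine ⟨s, hs, ⟨⟨hs, ?_⟩, kel_scale d g s c hkel⟩⟩
    rw [mem_sphere_zero_iff_norm]
    exact hs1
  by_cases hne : K.Nonempty
  · obtain ⟨x, hx, hmin⟩ := hcomp.exists_isMinOn hne continuous_fst.continuousOn
    have hx0 : 0 < x.1 := by
      rcases lt_or_eq_of_le hx.1.1.1 with h | h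
      · exact h
      · exfalso
        have h2 := hx.2
        rw [Set.mem_ofPred_eq, ← h] at h2
        have h3 := kel_zero d g hg x.2 h2
        have h4 := hx.1.2
        rw [h3] at h4
        simp at h4
    have hx1 : x.1 ≤ 1 := hx.1.1.2
    refine ⟨max 1 ((x.1 ^ (2 * d))⁻¹), ?_⟩
    intro c hkel k
    by_cases hc : ‖c‖ ≤ 1
    · exact (norm_le_pi_norm c k).trans (hc.trans (le_max_left _ _))
    · push Not at hc
      obtain ⟨s, hs, hsK⟩ := hscale c hc hkel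
      have hge : x.1 ≤ s := hmin hsK
      have hsn := hsK.1.2
      rw [mem_sphere_zero_iff_norm] at hsn
      have h5 := norm_le_pi_norm
        (fun k : {e // e ∈ Mx d} × Fin 2 => (s : ℂ) ^ (k.1.1 0 + k.1.1 1 - 1) * c k) k
      rw [hsn] at h5
      simp only [norm_mul, norm_pow, Complex.norm_real] at h5
      have hs0 : 0 < s := hx0.trans_le hge
      rw [Real.norm_of_nonneg hs0.le] at h5
      have hk := (mem_Mx d k.1.1).1 k.1.2
      have h6 : x.1 ^ (2 * d) ≤ s ^ (k.1.1 0 + k.1.1 1 - 1) := by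
        calc x.1 ^ (2 * d) ≤ x.1 ^ (k.1.1 0 + k.1.1 1 - 1) :=
              pow_le_pow_of_le_one hx0.le hx1 (by omega)
          _ ≤ _ := pow_le_pow_left₀ hx0.le hge _
      refine le_trans ?_ (le_max_right _ _)
      rw [← one_div, le_div_iff₀ (pow_pos hx0 _)]
      calc ‖c k‖ * x.1 ^ (2 * d) ≤ ‖c k‖ * s ^ (k.1.1 0 + k.1.1 1 - 1) :=
            mul_le_mul_of_nonneg_left h6 (norm_nonneg _)
        _ ≤ 1 := by rw [mul_comm]; exact h5
  · refine ⟨1, ?_⟩
    intro c hkel k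
    by_contra hlt
    push Not at hlt
    have hc : 1 < ‖c‖ := hlt.trans_le (norm_le_pi_norm c k)
    obtain ⟨s, _, hsK⟩ := hscale c hc hkel
    exact hne ⟨_, hsK⟩

/-- The universal coefficient. -/
noncomputable def PA (d : ℕ) (g : Fin 2 → Ex → ℂ) (i : Fin 2) (e : Ex) :
    MvPolynomial ({e // e ∈ Mx d} × Fin 2) ℂ :=
  if h : e ∈ Mx d then X (⟨e, h⟩, i)
  else C (if e 0 = 0 ∨ e 1 = 0 then (if e = 0 then 0 else ((1 : ℝ) : ℂ) ^ (e 0 + e 1 - 1) * g i e) else 0)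

theorem eval_PA (d : ℕ) (g : Fin 2 → Ex → ℂ) (i : Fin 2) (e : Ex)
    (c : {e // e ∈ Mx d} × Fin 2 → ℂ) :
    eval c (PA d g i e) = A d (g i) 1 (fun k => c (k, i)) e := by
  unfold PA A
  by_cases h : e ∈ Mx d
  · rw [dif_pos h, dif_pos h, eval_X]
  · rw [dif_neg h, dif_neg h, eval_C]

theorem fin_V (d : ℕ) (g : Fin 2 → Ex → ℂ) (hg : ∀ i, (Function.support (g i)).Finite) :
    {c : {e // e ∈ Mx d} × Fin 2 → ℂ |
      Kel (A d (g 0) 1 (fun k => c (k, 0))) (A d (g 1) 1 (fun k => c (k, 1)))}.Finite := by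
  obtain ⟨B, hB⟩ := bdd d g hg
  set J : Set (MvPolynomial ({e // e ∈ Mx d} × Fin 2) ℂ) :=
    Set.range fun m : Ex => (∑ p ∈ antidiagonal m,
      C ((p.1 0 : ℂ) * (p.2 1 : ℂ) - (p.1 1 : ℂ) * (p.2 0 : ℂ)) * (PA d g 0 p.1 * PA d g 1 p.2))
        - C (if m = Finsupp.single 0 1 + Finsupp.single 1 1 then (1 : ℂ) else 0) with hJ
  have key : ∀ c : {e // e ∈ Mx d} × Fin 2 → ℂ, (∀ p ∈ J, eval c p = 0) ↔
      Kel (A d (g 0) 1 (fun k => c (k, 0))) (A d (g 1) 1 (fun k => c (k, 1))) := by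
    intro c
    rw [hJ, Set.forall_mem_range]
    unfold Kel Phi
    refine forall_congr' fun m => ?_
    simp only [map_sub, map_sum, map_mul, eval_C, eval_PA]
    rw [sub_eq_zero]
  have := finite_of_bdd J B (fun c hc => hB c ((key c).1 hc))
  refine this.subset ?_
  intro c hc
  exact (key c).2 hc

end Pool.Agent.L5helper13.KM
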