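import Mathlib

set_option autoImplicit false

namespace Pool.Agent.L5helper13.KM

open MvPolynomial Finset

/-- Exponents of monomials in two variables. -/
abbrev Ex := Fin 2 →₀ ℕ

/-- The coefficients of `x * y * (P_x * Q_y - P_y * Q_x)` in terms of the coefficients of `P` and `Q`. -/
noncomputable def Phi (a b : Ex → ℂ) (m : Ex) : ℂ :=
  ∑ p ∈ antidiagonal m, ((p.1 0 : ℂ) * (p.2 1 : ℂ) - (p.1 1 : ℂ) * (p.2 0 : ℂ)) * (a p.1 * b p.2)

/-- The Keller condition in terms of the coefficients. -/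
def Kel (a b : Ex → ℂ) : Prop :=
  ∀ m, Phi a b m = if m = Finsupp.single 0 1 + Finsupp.single 1 1 then 1 else 0

end Pool.Agent.L5helper13.KM
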