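import Pool.Agent.L5helper83.KMCross

set_option autoImplicit false

namespace Pool.Agent.L5helper13.KM

open MvPolynomial

/-- Restriction to the axis `x_i = 0`. -/
noncomputable def rho (i : Fin 2) : MvPolynomial (Fin 2) ℂ →ₐ[ℂ] Polynomial ℂ :=
  aeval (fun j => if j = i then 0 else Polynomial.X)

theorem rho_X_self (i : Fin 2) : rho i (X i) = 0 := by simp [rho]

theorem rho_X_ne (i j : Fin 2) (h : j ≠ i) : rho i (X j) = Polynomial.X := by simp [rho, h]

theorem rho_C (i : Fin 2) (c : ℂ) : rho i (C c) = Polynomial.C c := by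
  simp [rho, Polynomial.algebraMap_eq]

theorem rho_pderiv (i j : Fin 2) (h : j ≠ i) (F : MvPolynomial (Fin 2) ℂ) :
    rho i (pderiv j F) = Polynomial.derivative (rho i F) := by
  induction F using MvPolynomial.induction_on with
  | C a => rw [pderiv_C, map_zero, rho_C, Polynomial.derivative_C]
  | add p q hp hq => rw [map_add, map_add, hp, hq, map_add, map_add]
  | mul_X p k hp =>
    rw [Derivation.leibniz, map_add, smul_eq_mul, smul_eq_mul, map_mul, map_mul, hp, map_mul,
      Polynomial.derivative_mul]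
    by_cases hk : k = i
    · subst hk
      rw [rho_X_self, pderiv_X_of_ne (by exact fun h' => h h'.symm)]
      simp
    · have hkj : k = j := by omega
      subst hkj
      rw [rho_X_ne i k h, pderiv_X_self]
      simp
      ring

theorem rho_eval (i : Fin 2) (F : MvPolynomial (Fin 2) ℂ) (t : ℂ) :
    (rho i F).eval t = eval (fun j => if j = i then 0 else t) F := by
  have : (Polynomial.evalRingHom t).comp (rho i : MvPolynomial (Fin 2) ℂ →+* Polynomial ℂ)
      = eval (fun j => if j = i then 0 else t) := by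
    apply MvPolynomial.ringHom_ext
    · intro r
      simp
    · intro k
      by_cases hk : k = i
      · subst hk
        simp [rho_X_self]
      · simp [rho_X_ne i k hk, hk]
  have h2 := congrArg (fun f => f F) this
  simpa using h2

theorem rho_monomial (i j : Fin 2) (h : j ≠ i) (u : Fin 2 →₀ ℕ) (a : ℂ) :
    rho i (monomial u a) = Polynomial.C a * (0 ^ u i * Polynomial.X ^ u j) := by
  rw [rho, aeval_monomial, Finsupp.prod_fintype _ _ (fun _ => pow_zero _), Fin.prod_univ_two,
    Polynomial.algebraMap_eq]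
  fin_cases i <;> fin_cases j <;> simp_all [mul_comm]

theorem rho_coeff (i j : Fin 2) (h : j ≠ i) (F : MvPolynomial (Fin 2) ℂ) (n : ℕ) :
    (rho i F).coeff n = coeff (Finsupp.single j n) F := by
  induction F using MvPolynomial.induction_on' with
  | monomial u a =>
    rw [rho_monomial i j h, coeff_monomial, Polynomial.coeff_C_mul]
    by_cases hu : u = Finsupp.single j n
    · rw [if_pos hu, hu]
      simp [h]
    · rw [if_neg hu]
      by_cases h0 : u i = 0
      · have h1 : n ≠ u j := by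
          intro h2
          apply hu
          ext k
          by_cases hk : k = j
          · subst hk
            simp [h2]
          · have hki : k = i := by omega
            subst hki
            simp [h0, h]
        rw [h0, pow_zero, one_mul, Polynomial.coeff_X_pow, if_neg h1, mul_zero]
      · rw [zero_pow h0, zero_mul, Polynomial.coeff_zero, mul_zero]
  | add p q hp hq => rw [map_add, Polynomial.coeff_add, coeff_add, hp, hq]

/-- The kernel of the restriction. -/
theorem dvd_of_rho (i : Fin 2) (F : MvPolynomial (Fin 2) ℂ) (h : rho i F = 0) : X i ∣ F := by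
  obtain ⟨j, hj⟩ : ∃ j : Fin 2, j ≠ i := exists_ne i
  rw [MvPolynomial.X_dvd_iff_modMonomial_eq_zero]
  ext e
  rw [coeff_zero]
  by_cases he : e i = 0
  · rw [coeff_modMonomial_of_not_le]
    · have : e = Finsupp.single j (e j) := by
        ext k
        by_cases hk : k = j
        · subst hk
          simp
        · have hki : k = i := by omega
          subst hki
          simp [he, hj]
      rw [this, ← rho_coeff i j hj, h, Polynomial.coeff_zero]
    · rw [Finsupp.single_le_iff]
      omega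
  · exact coeff_modMonomial_of_le F (by
      rw [Finsupp.single_le_iff]
      omega)

theorem rho_natDegree (i : Fin 2) (F : MvPolynomial (Fin 2) ℂ) :
    (rho i F).natDegree ≤ F.totalDegree := by
  have : rho i F = ∑ e ∈ F.support, Polynomial.C (coeff e F) *
      ∏ k, (if k = i then (0 : Polynomial ℂ) else Polynomial.X) ^ e k := by
    conv_lhs => rw [F.as_sum]
    rw [map_sum]
    refine Finset.sum_congr rfl fun e _ => ?_
    rw [rho, aeval_monomial, Finsupp.prod_fintype _ _ (fun _ => pow_zero _)]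
    rfl
  rw [this]
  refine Polynomial.natDegree_sum_le_of_forall_le _ _ ?_
  intro e he
  have h5 := le_totalDegree he
  have h6 : (e.sum fun _ n => n) = e 0 + e 1 := by
    rw [Finsupp.sum_fintype _ _ (fun _ => rfl), Fin.sum_univ_two]
  rw [h6] at h5
  refine (Polynomial.natDegree_C_mul_le _ _).trans (le_trans ?_ h5)
  rw [Fin.prod_univ_two]
  refine Polynomial.natDegree_mul_le.trans (Nat.add_le_add ?_ ?_)
  · refine Polynomial.natDegree_pow_le.trans ?_
    split_ifs <;> simp
  · refine Polynomial.natDegree_pow_le.trans ?_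
    split_ifs <;> simp

theorem not_X_dvd_X (i j : Fin 2) (h : i ≠ j) : ¬ (X i : MvPolynomial (Fin 2) ℂ) ∣ X j := by
  rintro ⟨q, hq⟩
  have := congrArg (rho i) hq
  rw [map_mul, rho_X_self, zero_mul, rho_X_ne i j h.symm] at this
  exact Polynomial.X_ne_zero this

theorem totalDegree_X_mul (i : Fin 2) (E : MvPolynomial (Fin 2) ℂ) (hE : E ≠ 0) :
    (X i * E).totalDegree = 1 + E.totalDegree := by
  rw [totalDegree_mul_of_isDomain (X_ne_zero i) hE, totalDegree_X]

/-- Common powers of the variables can be stripped off a nonzero pair. -/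
theorem strip : ∀ (N : ℕ) (D : Fin 2 → MvPolynomial (Fin 2) ℂ),
    (D 0).totalDegree + (D 1).totalDegree ≤ N → ¬ (D 0 = 0 ∧ D 1 = 0) →
    ∃ (m n : ℕ) (E : Fin 2 → MvPolynomial (Fin 2) ℂ), (∀ k, D k = X 0 ^ m * X 1 ^ n * E k) ∧
      ∀ i : Fin 2, ¬ ∀ k, X i ∣ E k := by
  intro N
  induction N with
  | zero =>
    intro D hD h0
    refine ⟨0, 0, D, fun k => by simp, ?_⟩
    intro i hi
    apply h0
    constructor
    · by_contra h1
      obtain ⟨q, hq⟩ := hi 0
      have hq0 : q ≠ 0 := by rintro rfl; exact h1 (by rw [hq, mul_zero])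
      have := totalDegree_X_mul i q hq0
      rw [← hq] at this
      omega
    · by_contra h1
      obtain ⟨q, hq⟩ := hi 1
      have hq0 : q ≠ 0 := by rintro rfl; exact h1 (by rw [hq, mul_zero])
      have := totalDegree_X_mul i q hq0
      rw [← hq] at this
      omega
  | succ N ih =>
    intro D hD h0
    by_cases hdiv : ∃ i : Fin 2, ∀ k, X i ∣ D k
    · obtain ⟨i, hi⟩ := hdiv
      choose E hE using hi
      have hne : ¬ (E 0 = 0 ∧ E 1 = 0) := by
        rintro ⟨h1, h2⟩
        exact h0 ⟨by rw [hE 0, h1, mul_zero], by rw [hE 1, h2, mul_zero]⟩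
      have hdeg : ∀ k, (E k).totalDegree ≤ (D k).totalDegree ∧ (E k ≠ 0 → (E k).totalDegree + 1 ≤ (D k).totalDegree) := by
        intro k
        by_cases hk : E k = 0
        · rw [hk]
          simp
        · have := totalDegree_X_mul i (E k) hk
          rw [← hE k] at this
          exact ⟨by omega, fun _ => by omega⟩
      have hsum : (E 0).totalDegree + (E 1).totalDegree ≤ N := by
        have h00 := hdeg 0
        have h11 := hdeg 1
        by_cases hk : E 0 = 0
        · have hk1 : E 1 ≠ 0 := fun h => hne ⟨hk, h⟩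
          have := h11.2 hk1
          omega
        · have := h00.2 hk
          omega
      obtain ⟨m, n, E', hE', hE''⟩ := ih E hsum hne
      have hi01 : i = 0 ∨ i = 1 := by omega
      rcases hi01 with rfl | rfl
      · refine ⟨m + 1, n, E', fun k => ?_, hE''⟩
        rw [hE k, hE' k]; ring
      · refine ⟨m, n + 1, E', fun k => ?_, hE''⟩
        rw [hE k, hE' k]; ring
    · push Not at hdiv
      refine ⟨0, 0, D, fun k => by simp, ?_⟩
      intro i hi
      obtain ⟨k, hk⟩ := hdiv i
      exact hk (hi k)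

theorem axis_eq (i j : Fin 2) (hij : j ≠ i) (G D Q : Fin 2 → MvPolynomial (Fin 2) ℂ) (a : ℕ)
    (c : MvPolynomial (Fin 2) ℂ) (hD : ∀ k, D k = X i ^ (a + 1) * Q k)
    (hG : pderiv i (G 0) * pderiv j (G 1) - pderiv j (G 0) * pderiv i (G 1) = c)
    (hF : pderiv i (G 0 + D 0) * pderiv j (G 1 + D 1)
      - pderiv j (G 0 + D 0) * pderiv i (G 1 + D 1) = c) :
    rho i (Q 0) * Polynomial.derivative (rho i (G 1))
      = rho i (Q 1) * Polynomial.derivative (rho i (G 0)) := by
  have hi : ∀ k, pderiv i (D k) = X i ^ a * (((a : MvPolynomial (Fin 2) ℂ) + 1) * Q k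
      + X i * pderiv i (Q k)) := by
    intro k
    rw [hD k, Derivation.leibniz, Derivation.leibniz_pow, pderiv_X_self, smul_eq_mul, smul_eq_mul,
      smul_eq_mul, nsmul_eq_mul, Nat.add_sub_cancel]
    push_cast
    ring
  have hj : ∀ k, pderiv j (D k) = X i ^ a * (X i * pderiv j (Q k)) := by
    intro k
    rw [hD k, Derivation.leibniz, Derivation.leibniz_pow, pderiv_X_of_ne hij.symm, smul_eq_mul,
      smul_eq_mul, smul_eq_mul, nsmul_eq_mul]
    ring
  have h1 : (X i : MvPolynomial (Fin 2) ℂ) ^ a *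
      (((a : MvPolynomial (Fin 2) ℂ) + 1) * (Q 0 * pderiv j (G 1) - Q 1 * pderiv j (G 0))
        + X i * (pderiv i (G 0) * pderiv j (Q 1) + pderiv i (Q 0) * pderiv j (G 1)
          - pderiv j (G 0) * pderiv i (Q 1) - pderiv j (Q 0) * pderiv i (G 1)
          + X i ^ a * ((((a : MvPolynomial (Fin 2) ℂ) + 1) * Q 0 + X i * pderiv i (Q 0))
              * pderiv j (Q 1)
            - pderiv j (Q 0) * (((a : MvPolynomial (Fin 2) ℂ) + 1) * Q 1
              + X i * pderiv i (Q 1))))) = 0 := by
    have h2 := hF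
    rw [← hG] at h2
    simp only [map_add, hi, hj] at h2
    linear_combination h2
  have h3 := (mul_eq_zero.1 h1).resolve_left (pow_ne_zero _ (X_ne_zero i))
  have h4 := congrArg (rho i) h3
  simp only [map_add, map_mul, map_sub, rho_X_self, zero_mul, add_zero, map_zero, map_natCast,
    map_one, rho_pderiv i j hij] at h4
  have h5 : ((a : Polynomial ℂ) + 1) ≠ 0 := by
    exact_mod_cast Nat.succ_ne_zero a
  have h6 := (mul_eq_zero.1 h4).resolve_left h5
  exact sub_eq_zero.1 h6

theorem lam (i j : Fin 2) (hij : j ≠ i) (G E : Fin 2 → MvPolynomial (Fin 2) ℂ) (c : ℂ) (hc : c ≠ 0)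
    (hG : pderiv i (G 0) * pderiv j (G 1) - pderiv j (G 0) * pderiv i (G 1) = C c)
    (h : rho i (E 0) * Polynomial.derivative (rho i (G 1))
      = rho i (E 1) * Polynomial.derivative (rho i (G 0))) :
    ∃ l : Polynomial ℂ, ∀ k, rho i (E k) = l * Polynomial.derivative (rho i (G k)) := by
  have h1 := congrArg (rho i) hG
  simp only [map_sub, map_mul, rho_pderiv i j hij, rho_C] at h1
  have h2 : Polynomial.C c⁻¹ * Polynomial.C c = 1 := by
    rw [← Polynomial.C_mul, inv_mul_cancel₀ hc, Polynomial.C_1]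
  refine ⟨Polynomial.C c⁻¹ * (rho i (pderiv i (G 0)) * rho i (E 1)
    - rho i (pderiv i (G 1)) * rho i (E 0)), ?_⟩
  intro k
  fin_cases k
  · simp only [Fin.zero_eta, Fin.isValue]
    linear_combination (-(rho i (E 0))) * h2 + (-(Polynomial.C c⁻¹ * rho i (E 0))) * h1
      + (Polynomial.C c⁻¹ * rho i (pderiv i (G 0))) * h
  · simp only [Fin.mk_one, Fin.isValue]
    linear_combination (-(rho i (E 1))) * h2 + (-(Polynomial.C c⁻¹ * rho i (E 1))) * h1
      + (Polynomial.C c⁻¹ * rho i (pderiv i (G 1))) * h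

theorem rho_eval_zero (i : Fin 2) (F : MvPolynomial (Fin 2) ℂ) :
    (rho i F).eval 0 = eval (fun _ => 0) F := by
  rw [rho_eval]
  congr 1
  congr 1
  funext j
  simp

theorem not_dvd_pow (i j : Fin 2) (h : j ≠ i) (n : ℕ) :
    ¬ (X i : MvPolynomial (Fin 2) ℂ) ∣ X j ^ n := by
  rintro ⟨q, hq⟩
  have := congrArg (rho i) hq
  rw [map_mul, rho_X_self, zero_mul, map_pow, rho_X_ne i j h] at this
  exact pow_ne_zero n Polynomial.X_ne_zero this

theorem drop (F G : Fin 2 → MvPolynomial (Fin 2) ℂ)
    (hF : pderiv 0 (F 0) * pderiv 1 (F 1) - pderiv 1 (F 0) * pderiv 0 (F 1) = 1)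
    (hG : pderiv 0 (G 0) * pderiv 1 (G 1) - pderiv 1 (G 0) * pderiv 0 (G 1) = 1)
    (hZ : ∀ k, ∀ v : Fin 2 → ℂ, v 0 * v 1 = 0 → eval v (F k) = eval v (G k))
    (hne : ¬ (F 0 = G 0 ∧ F 1 = G 1)) (i k : Fin 2) (hk : 1 ≤ (rho i (G k)).natDegree) :
    2 + (rho i (G k)).natDegree ≤ (F k - G k).totalDegree := by
  obtain ⟨m, n, E, hE, hnd⟩ := strip _ (fun k => F k - G k) le_rfl (by
    rintro ⟨h0, h1⟩
    exact hne ⟨sub_eq_zero.1 h0, sub_eq_zero.1 h1⟩)
  have hdvd : ∀ i k : Fin 2, X i ∣ F k - G k := by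
    intro i k
    apply dvd_of_rho
    obtain ⟨j, hj⟩ : ∃ j : Fin 2, j ≠ i := exists_ne i
    rw [map_sub, sub_eq_zero]
    ext t
    rw [rho_coeff i j hj, rho_coeff i j hj]
    refine cross _ _ (hZ k) _ ?_
    have hi : (Finsupp.single j t : Fin 2 →₀ ℕ) i = 0 := by
      rw [Finsupp.single_apply, if_neg hj]
    fin_cases i
    · exact Or.inl hi
    · exact Or.inr hi
  obtain ⟨m', rfl⟩ : ∃ m', m = m' + 1 := by
    refine Nat.exists_eq_succ_of_ne_zero ?_
    rintro rfl
    apply hnd 0
    intro k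
    have h1 := hdvd 0 k
    rw [hE k, pow_zero, one_mul] at h1
    exact (X_dvd_mul_iff.1 h1).resolve_left (not_dvd_pow 0 1 (by decide) n)
  obtain ⟨n', rfl⟩ : ∃ n', n = n' + 1 := by
    refine Nat.exists_eq_succ_of_ne_zero ?_
    rintro rfl
    apply hnd 1
    intro k
    have h1 := hdvd 1 k
    rw [hE k, pow_zero, mul_one] at h1
    exact (X_dvd_mul_iff.1 h1).resolve_left (not_dvd_pow 1 0 (by decide) _)
  -- the two restrictions
  have hA0 : rho 0 (E 0) * Polynomial.derivative (rho 0 (G 1))
      = rho 0 (E 1) * Polynomial.derivative (rho 0 (G 0)) := by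
    have h1 := axis_eq 0 1 (by decide) G (fun k => F k - G k) (fun k => X 1 ^ (n' + 1) * E k) m' 1
      (fun k => by rw [hE k]; ring) hG (by simpa using hF)
    simp only [map_mul, map_pow, rho_X_ne 0 1 (by decide)] at h1
    have h2 : (Polynomial.X : Polynomial ℂ) ^ (n' + 1) ≠ 0 := pow_ne_zero _ Polynomial.X_ne_zero
    apply mul_left_cancel₀ h2
    linear_combination h1
  have hA1 : rho 1 (E 0) * Polynomial.derivative (rho 1 (G 1))
      = rho 1 (E 1) * Polynomial.derivative (rho 1 (G 0)) := by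
    have h1 := axis_eq 1 0 (by decide) G (fun k => F k - G k) (fun k => X 0 ^ (m' + 1) * E k) n' (-1)
      (fun k => by rw [hE k]; ring) (by linear_combination (-1) * hG) (by
        have h3 : ∀ k, G k + (F k - G k) = F k := fun k => by ring
        simp only [h3]
        linear_combination (-1) * hF)
    simp only [map_mul, map_pow, rho_X_ne 1 0 (by decide)] at h1
    have h2 : (Polynomial.X : Polynomial ℂ) ^ (m' + 1) ≠ 0 := pow_ne_zero _ Polynomial.X_ne_zero
    apply mul_left_cancel₀ h2
    linear_combination h1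
  obtain ⟨l0, hl0⟩ := lam 0 1 (by decide) G E 1 one_ne_zero (by rw [hG, C_1]) hA0
  obtain ⟨l1, hl1⟩ := lam 1 0 (by decide) G E (-1) (by norm_num) (by
    rw [C_neg, C_1]; linear_combination (-1) * hG) hA1
  -- values at the origin
  have hz : ∀ k : Fin 2, l0.eval 0 * eval (fun _ => 0) (pderiv 1 (G k))
      = l1.eval 0 * eval (fun _ => 0) (pderiv 0 (G k)) := by
    intro k
    have h1 := congrArg (Polynomial.eval 0) (hl0 k)
    have h2 := congrArg (Polynomial.eval 0) (hl1 k)
    rw [Polynomial.eval_mul, ← rho_pderiv 0 1 (by decide), rho_eval_zero, rho_eval_zero] at h1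
    rw [Polynomial.eval_mul, ← rho_pderiv 1 0 (by decide), rho_eval_zero, rho_eval_zero] at h2
    rw [← h1, ← h2]
  have hdet := congrArg (eval (fun _ => (0 : ℂ))) hG
  simp only [map_sub, map_mul, map_one] at hdet
  have hz0 := hz 0
  have hz1 := hz 1
  have hl00 : l0.eval 0 = 0 := by
    linear_combination (-(l0.eval 0)) * hdet
      + (eval (fun _ => (0 : ℂ)) (pderiv 0 (G 0))) * hz1
      - (eval (fun _ => (0 : ℂ)) (pderiv 0 (G 1))) * hz0
  have hl10 : l1.eval 0 = 0 := by
    linear_combination (-(l1.eval 0)) * hdet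
      + (eval (fun _ => (0 : ℂ)) (pderiv 1 (G 0))) * hz1
      - (eval (fun _ => (0 : ℂ)) (pderiv 1 (G 1))) * hz0
  -- both axes at once
  obtain ⟨l, hl, hl_eval⟩ : ∃ l : Polynomial ℂ,
      (∀ k, rho i (E k) = l * Polynomial.derivative (rho i (G k))) ∧ l.eval 0 = 0 := by
    fin_cases i
    · exact ⟨l0, hl0, hl00⟩
    · exact ⟨l1, hl1, hl10⟩
  have hlne : l ≠ 0 := by
    rintro rfl
    apply hnd i
    intro k
    apply dvd_of_rho
    rw [hl k, zero_mul]
  have hldeg : 1 ≤ l.natDegree := by
    by_contra hlt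
    have h0 : l.natDegree = 0 := by omega
    rw [Polynomial.eq_C_of_natDegree_eq_zero h0, Polynomial.eval_C] at hl_eval
    apply hlne
    rw [Polynomial.eq_C_of_natDegree_eq_zero h0, hl_eval, Polynomial.C_0]
  have hdne : Polynomial.derivative (rho i (G k)) ≠ 0 := by
    intro h0
    have := Polynomial.derivative_eq_zero.1 h0
    omega
  have hdd : (Polynomial.derivative (rho i (G k))).natDegree = (rho i (G k)).natDegree - 1 :=
    Polynomial.natDegree_derivative _
  have hEk : (rho i (G k)).natDegree ≤ (E k).totalDegree := by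
    refine le_trans ?_ (rho_natDegree i (E k))
    rw [hl k, Polynomial.natDegree_mul hlne hdne, hdd]
    omega
  have hEne : E k ≠ 0 := by
    intro h0
    have := hl k
    rw [h0, map_zero] at this
    exact (mul_ne_zero hlne hdne) this.symm
  have h7 : (F k - G k).totalDegree = (m' + 1) + (n' + 1) + (E k).totalDegree := by
    have h8 := hE k
    rw [h8, totalDegree_mul_of_isDomain (mul_ne_zero (pow_ne_zero _ (X_ne_zero 0))
      (pow_ne_zero _ (X_ne_zero 1))) hEne, totalDegree_mul_of_isDomain (pow_ne_zero _ (X_ne_zero 0))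
      (pow_ne_zero _ (X_ne_zero 1)), totalDegree_X_pow, totalDegree_X_pow]
  rw [h7]
  omega

/-- Uniqueness if the degree of one linear combination of the components drops by at most one on one
of the axes. -/
theorem drop_comb (F₁ F₂ G₁ G₂ : MvPolynomial (Fin 2) ℂ)
    (hF : pderiv 0 F₁ * pderiv 1 F₂ - pderiv 1 F₁ * pderiv 0 F₂ = 1)
    (hG : pderiv 0 G₁ * pderiv 1 G₂ - pderiv 1 G₁ * pderiv 0 G₂ = 1)
    (hZ : ∀ v : Fin 2 → ℂ, v 0 * v 1 = 0 → eval v F₁ = eval v G₁ ∧ eval v F₂ = eval v G₂)
    (a b : ℂ) (hab : ¬ (a = 0 ∧ b = 0)) (i : Fin 2)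
    (h1 : 1 ≤ (rho i (C a * G₁ + C b * G₂)).natDegree)
    (h2 : (C a * (F₁ - G₁) + C b * (F₂ - G₂)).totalDegree
      ≤ 1 + (rho i (C a * G₁ + C b * G₂)).natDegree) : F₁ = G₁ ∧ F₂ = G₂ := by
  obtain ⟨c, d, hcd⟩ : ∃ c d : ℂ, a * d - b * c = 1 := by
    by_cases ha : a = 0
    · have hb : b ≠ 0 := fun hb => hab ⟨ha, hb⟩
      exact ⟨-b⁻¹, 0, by rw [ha]; field_simp; ring⟩
    · exact ⟨0, a⁻¹, by field_simp; ring⟩
  have hC : (C a : MvPolynomial (Fin 2) ℂ) * C d - C b * C c = 1 := by
    rw [← C_mul, ← C_mul, ← C_sub, hcd, C_1]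
  by_contra hne
  have hpd : ∀ (r s : ℂ) (k : Fin 2) (P Q : MvPolynomial (Fin 2) ℂ),
      pderiv k (C r * P + C s * Q) = C r * pderiv k P + C s * pderiv k Q := by
    intro r s k P Q
    rw [map_add, pderiv_C_mul, pderiv_C_mul]
  have hK : ∀ P Q : MvPolynomial (Fin 2) ℂ,
      pderiv 0 P * pderiv 1 Q - pderiv 1 P * pderiv 0 Q = 1 →
      pderiv 0 (C a * P + C b * Q) * pderiv 1 (C c * P + C d * Q)
        - pderiv 1 (C a * P + C b * Q) * pderiv 0 (C c * P + C d * Q) = 1 := by
    intro P Q h
    simp only [hpd]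
    linear_combination (C a * C d - C b * C c) * h + hC
  have := drop ![C a * F₁ + C b * F₂, C c * F₁ + C d * F₂] ![C a * G₁ + C b * G₂, C c * G₁ + C d * G₂]
    (by simpa using hK F₁ F₂ hF) (by simpa using hK G₁ G₂ hG)
    (by
      intro k v hv
      obtain ⟨e1, e2⟩ := hZ v hv
      fin_cases k <;> simp [e1, e2])
    (by
      rintro ⟨e1, e2⟩
      simp only [Matrix.cons_val_zero, Matrix.cons_val_one] at e1 e2
      apply hne
      constructor
      · linear_combination (C d) * e1 - (C b) * e2 - (F₁ - G₁) * hC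
      · linear_combination (-(C c)) * e1 + (C a) * e2 - (F₂ - G₂) * hC)
    i 0 (by simpa using h1)
  simp only [Matrix.cons_val_zero] at this
  have h3 : C a * F₁ + C b * F₂ - (C a * G₁ + C b * G₂) = C a * (F₁ - G₁) + C b * (F₂ - G₂) := by ring
  rw [h3] at this
  omega

end Pool.Agent.L5helper13.KM
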