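import Pool.Agent.L5helper13.KM.Lines

set_option autoImplicit false

namespace Pool.Agent.L5helper13.KM

open MvPolynomial

/-- Restriction to the line `p + t u`. -/
noncomputable def lin (p u : Fin 2 → ℂ) : MvPolynomial (Fin 2) ℂ →ₐ[ℂ] Polynomial ℂ :=
  aeval (fun j => Polynomial.C (p j) + Polynomial.C (u j) * Polynomial.X)

theorem lin_deg_one (p u : Fin 2 → ℂ) (j : Fin 2) :
    (Polynomial.C (p j) + Polynomial.C (u j) * Polynomial.X : Polynomial ℂ).natDegree ≤ 1 := by
  refine Polynomial.natDegree_add_le_of_degree_le ?_ ?_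
  · simp
  · exact (Polynomial.natDegree_C_mul_le _ _).trans (by simp)

theorem lin_monomial (p u : Fin 2 → ℂ) (e : Fin 2 →₀ ℕ) (c : ℂ) :
    lin p u (monomial e c) = Polynomial.C c *
      ((Polynomial.C (p 0) + Polynomial.C (u 0) * Polynomial.X) ^ e 0 *
        (Polynomial.C (p 1) + Polynomial.C (u 1) * Polynomial.X) ^ e 1) := by
  rw [lin, aeval_monomial, Finsupp.prod_fintype _ _ (fun _ => pow_zero _), Fin.prod_univ_two,
    Polynomial.algebraMap_eq]

theorem lin_monomial_natDegree (p u : Fin 2 → ℂ) (e : Fin 2 →₀ ℕ) (c : ℂ) :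
    (lin p u (monomial e c)).natDegree ≤ e 0 + e 1 := by
  rw [lin_monomial]
  refine (Polynomial.natDegree_C_mul_le _ _).trans ?_
  refine Polynomial.natDegree_mul_le.trans (Nat.add_le_add ?_ ?_)
  · exact Polynomial.natDegree_pow_le.trans (by nlinarith [lin_deg_one p u 0])
  · exact Polynomial.natDegree_pow_le.trans (by nlinarith [lin_deg_one p u 1])

theorem lin_monomial_coeff (p u : Fin 2 → ℂ) (e : Fin 2 →₀ ℕ) (c : ℂ) :
    (lin p u (monomial e c)).coeff (e 0 + e 1) = c * (u 0 ^ e 0 * u 1 ^ e 1) := by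
  have h : ∀ j, ((Polynomial.C (p j) + Polynomial.C (u j) * Polynomial.X : Polynomial ℂ) ^ e j).coeff (e j)
      = u j ^ e j := by
    intro j
    have := Polynomial.coeff_pow_of_natDegree_le (lin_deg_one p u j) (m := e j)
    rw [mul_one] at this
    rw [this]
    simp
  have hn : ∀ j, ((Polynomial.C (p j) + Polynomial.C (u j) * Polynomial.X : Polynomial ℂ) ^ e j).natDegree
      ≤ e j := fun j => Polynomial.natDegree_pow_le.trans (by nlinarith [lin_deg_one p u j])
  rw [lin_monomial, Polynomial.coeff_C_mul, Polynomial.coeff_mul_add_eq_of_natDegree_le (hn 0) (hn 1), h 0, h 1]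

theorem lin_coeff (p u : Fin 2 → ℂ) (F : MvPolynomial (Fin 2) ℂ) (d : ℕ) (hd : F.totalDegree ≤ d) :
    (lin p u F).coeff d = eval u (homogeneousComponent d F) := by
  classical
  rw [homogeneousComponent_apply]
  conv_lhs => rw [F.as_sum]
  rw [map_sum, Polynomial.finsetSum_coeff, map_sum, Finset.sum_filter]
  refine Finset.sum_congr rfl ?_
  intro e he
  have h5 := le_totalDegree he
  have h6 : (e.sum fun _ n => n) = e 0 + e 1 := by
    rw [Finsupp.sum_fintype _ _ (fun _ => rfl), Fin.sum_univ_two]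
  have h7 : Finsupp.degree e = e 0 + e 1 := by
    rw [← h6]
    rfl
  rw [h6] at h5
  by_cases h8 : e 0 + e 1 = d
  · rw [if_pos (by rw [h7]; exact h8), ← h8, lin_monomial_coeff, eval_monomial,
      Finsupp.prod_fintype _ _ (fun _ => pow_zero _), Fin.prod_univ_two]
  · rw [if_neg (by rw [h7]; exact h8)]
    exact Polynomial.coeff_eq_zero_of_natDegree_lt
      ((lin_monomial_natDegree p u e _).trans_lt (by omega))

theorem lin_natDegree_le (p u : Fin 2 → ℂ) (F : MvPolynomial (Fin 2) ℂ) :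
    (lin p u F).natDegree ≤ F.totalDegree := by
  conv_lhs => rw [F.as_sum]
  rw [map_sum]
  refine Polynomial.natDegree_sum_le_of_forall_le _ _ ?_
  intro e he
  have h5 := le_totalDegree he
  have h6 : (e.sum fun _ n => n) = e 0 + e 1 := by
    rw [Finsupp.sum_fintype _ _ (fun _ => rfl), Fin.sum_univ_two]
  rw [h6] at h5
  exact (lin_monomial_natDegree p u e _).trans h5

theorem lin_natDegree (p u : Fin 2 → ℂ) (F : MvPolynomial (Fin 2) ℂ)
    (h : eval u (homogeneousComponent F.totalDegree F) ≠ 0) :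
    (lin p u F).natDegree = F.totalDegree := by
  refine le_antisymm (lin_natDegree_le p u F) ?_
  refine Polynomial.le_natDegree_of_ne_zero ?_
  rw [lin_coeff p u F _ le_rfl]
  exact h

theorem lin_eval (p u : Fin 2 → ℂ) (F : MvPolynomial (Fin 2) ℂ) (t : ℂ) :
    (lin p u F).eval t = eval (p + t • u) F := by
  have : (Polynomial.evalRingHom t).comp (lin p u : MvPolynomial (Fin 2) ℂ →ₐ[ℂ] _).toRingHom
      = eval (p + t • u) := by
    apply MvPolynomial.ringHom_ext
    · intro r
      simp [lin]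
    · intro k
      simp [lin]
      ring
  exact congrArg (fun f => f F) this

theorem comb_nonconst (G₁ G₂ : MvPolynomial (Fin 2) ℂ)
    (hG : pderiv 0 G₁ * pderiv 1 G₂ - pderiv 1 G₁ * pderiv 0 G₂ = 1) (a b : ℂ)
    (hab : ¬ (a = 0 ∧ b = 0)) : 1 ≤ (C a * G₁ + C b * G₂).totalDegree := by
  by_contra hlt
  have h0 : (C a * G₁ + C b * G₂).totalDegree = 0 := by omega
  rw [totalDegree_eq_zero_iff_eq_C] at h0
  have hk : ∀ k : Fin 2, C a * pderiv k G₁ + C b * pderiv k G₂ = 0 := by
    intro k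
    have := congrArg (pderiv k) h0
    rw [map_add, pderiv_C_mul, pderiv_C_mul, pderiv_C] at this
    exact this
  have ha : (C a : MvPolynomial (Fin 2) ℂ) = 0 := by
    linear_combination (-(C a)) * hG + (pderiv 1 G₂) * hk 0 - (pderiv 0 G₂) * hk 1
  have hb : (C b : MvPolynomial (Fin 2) ℂ) = 0 := by
    linear_combination (-(C b)) * hG - (pderiv 1 G₁) * hk 0 + (pderiv 0 G₁) * hk 1
  exact hab ⟨C_eq_zero.1 ha, C_eq_zero.1 hb⟩

/-- Agreement on a cross one of whose directions is no zero of the leading forms of some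
linear combination of the components. -/
theorem lead_lines (F₁ F₂ G₁ G₂ : MvPolynomial (Fin 2) ℂ)
    (hF : pderiv 0 F₁ * pderiv 1 F₂ - pderiv 1 F₁ * pderiv 0 F₂ = 1)
    (hG : pderiv 0 G₁ * pderiv 1 G₂ - pderiv 1 G₁ * pderiv 0 G₂ = 1)
    (p u v : Fin 2 → ℂ) (huv : u 0 * v 1 - u 1 * v 0 ≠ 0)
    (hu : ∀ t : ℂ, eval (p + t • u) F₁ = eval (p + t • u) G₁ ∧
      eval (p + t • u) F₂ = eval (p + t • u) G₂)
    (hv : ∀ t : ℂ, eval (p + t • v) F₁ = eval (p + t • v) G₁ ∧
      eval (p + t • v) F₂ = eval (p + t • v) G₂)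
    (a b : ℂ) (hab : ¬ (a = 0 ∧ b = 0))
    (h1 : eval u (homogeneousComponent (C a * F₁ + C b * F₂).totalDegree (C a * F₁ + C b * F₂)) ≠ 0)
    (h2 : eval u (homogeneousComponent (C a * G₁ + C b * G₂).totalDegree (C a * G₁ + C b * G₂)) ≠ 0) :
    F₁ = G₁ ∧ F₂ = G₂ := by
  have e1 : lin p u (C a * F₁ + C b * F₂) = lin p u (C a * G₁ + C b * G₂) := by
    apply Polynomial.funext
    intro t
    rw [lin_eval, lin_eval]
    simp [(hu t).1, (hu t).2]
  have e2 : (C a * F₁ + C b * F₂).totalDegree = (C a * G₁ + C b * G₂).totalDegree := by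
    rw [← lin_natDegree p u _ h1, ← lin_natDegree p u _ h2, e1]
  have e3 := comb_nonconst G₁ G₂ hG a b hab
  have e5 : C a * (F₁ - G₁) + C b * (F₂ - G₂) = (C a * F₁ + C b * F₂) - (C a * G₁ + C b * G₂) := by
    ring
  have e6 : (aeval (fun j => Polynomial.C (p j) + Polynomial.C (u j) * Polynomial.X)
      (C a * G₁ + C b * G₂)).natDegree = (C a * G₁ + C b * G₂).totalDegree := lin_natDegree p u _ h2
  refine drop_lines F₁ F₂ G₁ G₂ hF hG p u v huv hu hv a b hab ?_ ?_
  · rw [e6]
    exact e3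
  · rw [e5, e6]
    have := totalDegree_sub (C a * F₁ + C b * F₂) (C a * G₁ + C b * G₂)
    rw [e2, max_self] at this
    omega

end Pool.Agent.L5helper13.KM
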