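import Pool.Agent.L5helper13.KM.Deg

set_option autoImplicit false

namespace Pool.Agent.L5helper13.KM

open MvPolynomial

theorem pderiv_aeval (T : Fin 2 → MvPolynomial (Fin 2) ℂ) (k : Fin 2) (F : MvPolynomial (Fin 2) ℂ) :
    pderiv k (aeval T F) = aeval T (pderiv 0 F) * pderiv k (T 0)
      + aeval T (pderiv 1 F) * pderiv k (T 1) := by
  induction F using MvPolynomial.induction_on with
  | C a => simp
  | add p q hp hq => rw [map_add, map_add, hp, hq]; simp only [map_add]; ring
  | mul_X p i hp =>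
    rw [map_mul, aeval_X, Derivation.leibniz, hp, smul_eq_mul, smul_eq_mul]
    fin_cases i
    · simp only [Fin.zero_eta, Fin.isValue, Derivation.leibniz, smul_eq_mul, pderiv_X_self,
        pderiv_X_of_ne (show (0 : Fin 2) ≠ 1 by decide), map_add, map_mul, aeval_X, map_one,
        map_zero]
      ring
    · simp only [Fin.mk_one, Fin.isValue, Derivation.leibniz, smul_eq_mul, pderiv_X_self,
        pderiv_X_of_ne (show (1 : Fin 2) ≠ 0 by decide), map_add, map_mul, aeval_X, map_one,
        map_zero]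
      ring

/-- The affine change of coordinates. -/
noncomputable def aff (p u v : Fin 2 → ℂ) (j : Fin 2) : MvPolynomial (Fin 2) ℂ :=
  C (p j) + C (u j) * X 0 + C (v j) * X 1

theorem aff_keller (p u v : Fin 2 → ℂ) (huv : u 0 * v 1 - u 1 * v 0 = 1)
    (F₁ F₂ : MvPolynomial (Fin 2) ℂ)
    (hF : pderiv 0 F₁ * pderiv 1 F₂ - pderiv 1 F₁ * pderiv 0 F₂ = 1) :
    pderiv 0 (aeval (aff p u v) F₁) * pderiv 1 (aeval (aff p u v) F₂)
      - pderiv 1 (aeval (aff p u v) F₁) * pderiv 0 (aeval (aff p u v) F₂) = 1 := by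
  have h0 : ∀ j, pderiv 0 (aff p u v j) = C (u j) := by
    intro j
    simp [aff]
  have h1 : ∀ j, pderiv 1 (aff p u v j) = C (v j) := by
    intro j
    simp [aff]
  have hC : (C (u 0) : MvPolynomial (Fin 2) ℂ) * C (v 1) - C (u 1) * C (v 0) = 1 := by
    rw [← C_mul, ← C_mul, ← C_sub, huv, C_1]
  have h2 := congrArg (aeval (aff p u v)) hF
  simp only [map_sub, map_mul, map_one] at h2
  simp only [pderiv_aeval, h0, h1]
  linear_combination (C (u 0) * C (v 1) - C (u 1) * C (v 0)) * h2 + hC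

theorem aff_eval (p u v w : Fin 2 → ℂ) (F : MvPolynomial (Fin 2) ℂ) :
    eval w (aeval (aff p u v) F) = eval (fun j => p j + u j * w 0 + v j * w 1) F := by
  have : (eval w).comp (aeval (aff p u v) : MvPolynomial (Fin 2) ℂ →ₐ[ℂ] _).toRingHom
      = eval (fun j => p j + u j * w 0 + v j * w 1) := by
    apply MvPolynomial.ringHom_ext
    · intro r
      simp
    · intro k
      simp [aff]
  exact congrArg (fun f => f F) this

theorem aff_inj (p u v : Fin 2 → ℂ) (huv : u 0 * v 1 - u 1 * v 0 = 1)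
    (F G : MvPolynomial (Fin 2) ℂ) (h : aeval (aff p u v) F = aeval (aff p u v) G) : F = G := by
  apply MvPolynomial.funext
  intro w
  have h1 := congrArg (eval ![(w 0 - p 0) * v 1 - (w 1 - p 1) * v 0,
    u 0 * (w 1 - p 1) - u 1 * (w 0 - p 0)]) h
  rw [aff_eval, aff_eval] at h1
  have h2 : (fun j => p j + u j * (![(w 0 - p 0) * v 1 - (w 1 - p 1) * v 0,
      u 0 * (w 1 - p 1) - u 1 * (w 0 - p 0)] : Fin 2 → ℂ) 0
      + v j * (![(w 0 - p 0) * v 1 - (w 1 - p 1) * v 0,
      u 0 * (w 1 - p 1) - u 1 * (w 0 - p 0)] : Fin 2 → ℂ) 1) = w := by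
    funext j
    fin_cases j
    · simp
      linear_combination (w 0 - p 0) * huv
    · simp
      linear_combination (w 1 - p 1) * huv
  rwa [h2] at h1

theorem aff_totalDegree (p u v : Fin 2 → ℂ) (D : MvPolynomial (Fin 2) ℂ) :
    (aeval (aff p u v) D).totalDegree ≤ D.totalDegree := by
  have hT : ∀ j, (aff p u v j).totalDegree ≤ 1 := by
    intro j
    unfold aff
    refine (totalDegree_add _ _).trans (max_le ((totalDegree_add _ _).trans (max_le ?_ ?_)) ?_)
    · rw [totalDegree_C]; exact Nat.zero_le _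
    · refine (totalDegree_mul _ _).trans ?_
      rw [totalDegree_C, totalDegree_X]
    · refine (totalDegree_mul _ _).trans ?_
      rw [totalDegree_C, totalDegree_X]
  conv_lhs => rw [D.as_sum]
  rw [map_sum]
  refine totalDegree_finsetSum_le ?_
  intro e he
  have h5 := le_totalDegree he
  have h6 : (e.sum fun _ n => n) = e 0 + e 1 := by
    rw [Finsupp.sum_fintype _ _ (fun _ => rfl), Fin.sum_univ_two]
  rw [h6] at h5
  rw [aeval_monomial, Finsupp.prod_fintype _ _ (fun _ => pow_zero _), Fin.prod_univ_two]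
  refine (totalDegree_mul _ _).trans ?_
  have h7 : ((algebraMap ℂ (MvPolynomial (Fin 2) ℂ)) (coeff e D)).totalDegree = 0 := by
    rw [algebraMap_eq, totalDegree_C]
  rw [h7, zero_add]
  refine (totalDegree_mul _ _).trans (le_trans (Nat.add_le_add ?_ ?_) h5)
  · exact (totalDegree_pow _ _).trans (by nlinarith [hT 0])
  · exact (totalDegree_pow _ _).trans (by nlinarith [hT 1])

theorem rho_aff (p u v : Fin 2 → ℂ) (F : MvPolynomial (Fin 2) ℂ) :
    rho 1 (aeval (aff p u v) F)
      = aeval (fun j => Polynomial.C (p j) + Polynomial.C (u j) * Polynomial.X) F := by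
  have : (rho 1).comp (aeval (aff p u v))
      = aeval (fun j => Polynomial.C (p j) + Polynomial.C (u j) * Polynomial.X) := by
    apply MvPolynomial.algHom_ext
    intro k
    simp [aff, rho_C, rho_X_self, rho_X_ne 1 0 (by decide)]
  exact congrArg (fun f => f F) this

/-- The version for two arbitrary lines through a point. -/
theorem drop_lines (F₁ F₂ G₁ G₂ : MvPolynomial (Fin 2) ℂ)
    (hF : pderiv 0 F₁ * pderiv 1 F₂ - pderiv 1 F₁ * pderiv 0 F₂ = 1)
    (hG : pderiv 0 G₁ * pderiv 1 G₂ - pderiv 1 G₁ * pderiv 0 G₂ = 1)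
    (p u v : Fin 2 → ℂ) (huv : u 0 * v 1 - u 1 * v 0 ≠ 0)
    (hu : ∀ t : ℂ, eval (p + t • u) F₁ = eval (p + t • u) G₁ ∧
      eval (p + t • u) F₂ = eval (p + t • u) G₂)
    (hv : ∀ t : ℂ, eval (p + t • v) F₁ = eval (p + t • v) G₁ ∧
      eval (p + t • v) F₂ = eval (p + t • v) G₂)
    (a b : ℂ) (hab : ¬ (a = 0 ∧ b = 0))
    (h1 : 1 ≤ (aeval (fun j => Polynomial.C (p j) + Polynomial.C (u j) * Polynomial.X)
      (C a * G₁ + C b * G₂)).natDegree)
    (h2 : (C a * (F₁ - G₁) + C b * (F₂ - G₂)).totalDegree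
      ≤ 1 + (aeval (fun j => Polynomial.C (p j) + Polynomial.C (u j) * Polynomial.X)
      (C a * G₁ + C b * G₂)).natDegree) : F₁ = G₁ ∧ F₂ = G₂ := by
  set δ := u 0 * v 1 - u 1 * v 0 with hδ
  set v' : Fin 2 → ℂ := δ⁻¹ • v with hv'
  have huv' : u 0 * v' 1 - u 1 * v' 0 = 1 := by
    rw [hv']
    simp only [Pi.smul_apply, smul_eq_mul]
    have : δ⁻¹ * δ = 1 := inv_mul_cancel₀ huv
    rw [hδ] at this ⊢
    linear_combination this
  have hlin : ∀ w : Fin 2 → ℂ, w 0 * w 1 = 0 →
      (eval w (aeval (aff p u v') F₁) = eval w (aeval (aff p u v') G₁) ∧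
        eval w (aeval (aff p u v') F₂) = eval w (aeval (aff p u v') G₂)) := by
    intro w hw
    simp only [aff_eval]
    rcases mul_eq_zero.1 hw with h0 | h0
    · have e : (fun j => p j + u j * w 0 + v' j * w 1) = p + (w 1 * δ⁻¹) • v := by
        funext j
        simp [h0, hv']
        ring
      rw [e]
      exact hv _
    · have e : (fun j => p j + u j * w 0 + v' j * w 1) = p + (w 0) • u := by
        funext j
        simp [h0]
        ring
      rw [e]
      exact hu _
  have e1 : C a * aeval (aff p u v') G₁ + C b * aeval (aff p u v') G₂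
      = aeval (aff p u v') (C a * G₁ + C b * G₂) := by
    simp [map_add, map_mul, algebraMap_eq]
  have e2 : C a * (aeval (aff p u v') F₁ - aeval (aff p u v') G₁)
      + C b * (aeval (aff p u v') F₂ - aeval (aff p u v') G₂)
      = aeval (aff p u v') (C a * (F₁ - G₁) + C b * (F₂ - G₂)) := by
    simp [map_add, map_mul, algebraMap_eq]
  have := drop_comb (aeval (aff p u v') F₁) (aeval (aff p u v') F₂) (aeval (aff p u v') G₁)
    (aeval (aff p u v') G₂) (aff_keller p u v' huv' F₁ F₂ hF) (aff_keller p u v' huv' G₁ G₂ hG)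
    hlin a b hab 1 (by rw [e1, rho_aff]; exact h1) (by
      rw [e1, e2, rho_aff]
      exact (aff_totalDegree p u v' _).trans h2)
  exact ⟨aff_inj p u v' huv' _ _ this.1, aff_inj p u v' huv' _ _ this.2⟩

end Pool.Agent.L5helper13.KM
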